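import Mathlib

set_option autoImplicit false

/-! The finite construction of helper84 (see `S16507.lean`), copied here so that it can be used
without the frozen statement. -/

namespace Pool.Agent.Lib.MP_32845f_nt

open Module

/-! ### Digits -/

theorem step {b x y x' y' : ℕ} (hx : x < b) (hx' : x' < b) (h : x + b * y = x' + b * y') :
    x = x' ∧ y = y' := by
  have h1 : x = x' := by
    have := congrArg (· % b) h
    simpa [Nat.add_mul_mod_self_left, Nat.mod_eq_of_lt hx, Nat.mod_eq_of_lt hx'] using this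
  subst h1
  have hb : 0 < b := by omega
  exact ⟨rfl, Nat.eq_of_mul_eq_mul_left hb (by omega)⟩

/-- the integer with base `2q` digits `d0, ..., d5` -/
def enc (q : ℕ) (d0 d1 d2 d3 d4 d5 : ZMod q) : ℕ :=
  d0.val + 2 * q * (d1.val + 2 * q * (d2.val + 2 * q * (d3.val + 2 * q * (d4.val + 2 * q * d5.val))))

theorem cast_of_val {q : ℕ} [NeZero q] {x y z w : ZMod q} (h : x.val + y.val = z.val + w.val) :
    x + y = z + w := by
  have := congrArg (Nat.cast : ℕ → ZMod q) h
  simpa using this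

theorem enc_sum {q : ℕ} [NeZero q] {a0 a1 a2 a3 a4 a5 b0 b1 b2 b3 b4 b5
    c0 c1 c2 c3 c4 c5 d0 d1 d2 d3 d4 d5 : ZMod q}
    (h : enc q a0 a1 a2 a3 a4 a5 + enc q b0 b1 b2 b3 b4 b5 =
      enc q c0 c1 c2 c3 c4 c5 + enc q d0 d1 d2 d3 d4 d5) :
    a0 + b0 = c0 + d0 ∧ a1 + b1 = c1 + d1 ∧ a2 + b2 = c2 + d2 ∧ a3 + b3 = c3 + d3 ∧
      a4 + b4 = c4 + d4 ∧ a5 + b5 = c5 + d5 := by
  have key : ∀ x y : ZMod q, x.val + y.val < 2 * q := fun x y => by
    have h1 := ZMod.val_lt x
    have h2 := ZMod.val_lt y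
    omega
  unfold enc at h
  have e0 := step (b := 2 * q) (key a0 b0) (key c0 d0)
    (y := (a1.val + 2 * q * (a2.val + 2 * q * (a3.val + 2 * q * (a4.val + 2 * q * a5.val)))) +
      (b1.val + 2 * q * (b2.val + 2 * q * (b3.val + 2 * q * (b4.val + 2 * q * b5.val)))))
    (y' := (c1.val + 2 * q * (c2.val + 2 * q * (c3.val + 2 * q * (c4.val + 2 * q * c5.val)))) +
      (d1.val + 2 * q * (d2.val + 2 * q * (d3.val + 2 * q * (d4.val + 2 * q * d5.val)))))
    (by linarith)
  have e1 := step (b := 2 * q) (key a1 b1) (key c1 d1)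
    (y := (a2.val + 2 * q * (a3.val + 2 * q * (a4.val + 2 * q * a5.val))) +
      (b2.val + 2 * q * (b3.val + 2 * q * (b4.val + 2 * q * b5.val))))
    (y' := (c2.val + 2 * q * (c3.val + 2 * q * (c4.val + 2 * q * c5.val))) +
      (d2.val + 2 * q * (d3.val + 2 * q * (d4.val + 2 * q * d5.val))))
    (by linarith [e0.2])
  have e2 := step (b := 2 * q) (key a2 b2) (key c2 d2)
    (y := (a3.val + 2 * q * (a4.val + 2 * q * a5.val)) +
      (b3.val + 2 * q * (b4.val + 2 * q * b5.val)))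
    (y' := (c3.val + 2 * q * (c4.val + 2 * q * c5.val)) +
      (d3.val + 2 * q * (d4.val + 2 * q * d5.val)))
    (by linarith [e1.2])
  have e3 := step (b := 2 * q) (key a3 b3) (key c3 d3)
    (y := (a4.val + 2 * q * a5.val) + (b4.val + 2 * q * b5.val))
    (y' := (c4.val + 2 * q * c5.val) + (d4.val + 2 * q * d5.val))
    (by linarith [e2.2])
  have e4 := step (b := 2 * q) (key a4 b4) (key c4 d4)
    (y := a5.val + b5.val) (y' := c5.val + d5.val)
    (by linarith [e3.2])
  exact ⟨cast_of_val e0.1, cast_of_val e1.1, cast_of_val e2.1, cast_of_val e3.1,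
    cast_of_val e4.1, cast_of_val e4.2⟩

theorem bound_step {b x y m : ℕ} (hx : x < b) (hy : y < m) : x + b * y < b * m := by
  have : b * (y + 1) ≤ b * m := Nat.mul_le_mul_left b hy
  have h2 : b * (y + 1) = b * y + b := by ring
  omega

theorem enc_lt (q : ℕ) [NeZero q] (d0 d1 d2 d3 d4 d5 : ZMod q) :
    enc q d0 d1 d2 d3 d4 d5 < (2 * q) ^ 6 := by
  have key : ∀ x : ZMod q, x.val < 2 * q := fun x => by
    have h1 := ZMod.val_lt x
    omega
  unfold enc
  have := bound_step (key d0) (bound_step (key d1) (bound_step (key d2) (bound_step (key d3)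
    (bound_step (key d4) (key d5)))))
  calc _ < _ := this
    _ = (2 * q) ^ 6 := by ring

theorem enc_lt' (q : ℕ) [NeZero q] (d0 d1 d2 d3 : ZMod q) :
    enc q d0 d1 d2 d3 0 0 < (2 * q) ^ 4 := by
  have key : ∀ x : ZMod q, x.val < 2 * q := fun x => by
    have h1 := ZMod.val_lt x
    omega
  unfold enc
  simp only [ZMod.val_zero, mul_zero, add_zero]
  have := bound_step (key d0) (bound_step (key d1) (bound_step (key d2) (key d3)))
  calc _ < _ := this
    _ = (2 * q) ^ 4 := by ring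

/-! ### Algebra -/

/-- In a field of characteristic different from two, the sum and the sum of squares of a pair
determine the pair. -/
theorem pair_of_sums {R : Type*} [Field R] (h2 : (2 : R) ≠ 0) {a b c d : R}
    (h1 : a + b = c + d) (hsq : a ^ 2 + b ^ 2 = c ^ 2 + d ^ 2) :
    (a = c ∧ b = d) ∨ (a = d ∧ b = c) := by
  have hb : b = c + d - a := by linear_combination h1
  subst hb
  have h3 : 2 * ((a - c) * (a - d)) = 0 := by linear_combination hsq
  rcases mul_eq_zero.1 ((mul_eq_zero.1 h3).resolve_left h2) with h | h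
  · left
    have : a = c := sub_eq_zero.1 h
    subst this
    exact ⟨rfl, by ring⟩
  · right
    have : a = d := sub_eq_zero.1 h
    subst this
    exact ⟨rfl, by ring⟩

section Main

variable {F K L : Type} [Field F] [Field K] [Field L] [Algebra F K] [Algebra F L]
  (bK : Basis (Fin 2) F K) (bL : Basis (Fin 3) F L)

/-- the linear map `K → L` sending `bK 0 ↦ bL 1`, `bK 1 ↦ bL 2` -/
noncomputable def iota : K →ₗ[F] L := bK.constr F ![bL 1, bL 2]

/-- the element of `L` attached to `(a, t)` -/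
noncomputable def vv (a : K) (t : F) : L := iota bK bL a + t • bL 0

theorem iota_apply (a : K) : iota bK bL a = bK.repr a 0 • bL 1 + bK.repr a 1 • bL 2 := by
  simp [iota, Basis.constr_apply_fintype, Fin.sum_univ_two]

theorem repr_vv (a : K) (t : F) : bL.repr (vv bK bL a t) 0 = t ∧
    bL.repr (vv bK bL a t) 1 = bK.repr a 0 ∧ bL.repr (vv bK bL a t) 2 = bK.repr a 1 := by
  unfold vv
  rw [iota_apply]
  refine ⟨?_, ?_, ?_⟩ <;> simp [Basis.repr_self]

theorem vv_inj {a a' : K} {t t' : F} (h : vv bK bL a t = vv bK bL a' t') : a = a' ∧ t = t' := by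
  obtain ⟨h0, h1, h2⟩ := repr_vv bK bL a t
  obtain ⟨h0', h1', h2'⟩ := repr_vv bK bL a' t'
  rw [h] at h0 h1 h2
  refine ⟨?_, h0.symm.trans h0'⟩
  apply bK.ext_elem
  intro i
  fin_cases i
  · exact h1.symm.trans h1'
  · exact h2.symm.trans h2'

theorem vv_zero_iff {a : K} {t : F} (h : vv bK bL a t = 0) : a = 0 ∧ t = 0 := by
  have h' : vv bK bL a t = vv bK bL 0 0 := by rw [h]; simp [vv]
  exact vv_inj bK bL h'

/-- Cross lemma. -/
theorem cross (h2 : (2 : K) ≠ 0) (hL : bL 0 = 1)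
    {a : K} {t t' : F} {u u' : K} (ha : a ≠ 0)
    (hne : bK.repr ((bK 1 / 2 + t • bK 0) / a) 1 + bK.repr ((bK 1 / 2 + t' • bK 0) / a) 1 ≠
      bK.repr (2 * u) 1 + bK.repr (2 * u') 1)
    (ht : t + bK.repr (u ^ 2) 1 = t' + bK.repr (u' ^ 2) 1)
    (hv : (vv bK bL a t) ^ 2 + vv bK bL u (bK.repr (u ^ 2) 0) =
      (vv bK bL a t') ^ 2 + vv bK bL u' (bK.repr (u' ^ 2) 0)) :
    t = t' ∧ u = u' := by
  by_cases htt : t = t'
  · subst htt
    refine ⟨rfl, ?_⟩
    have := vv_inj bK bL (add_left_cancel hv)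
    exact this.1
  · exfalso
    -- first the equation in `L`
    have e1 : vv bK bL (2 * ((t - t') • a) + (u - u'))
        ((t - t') * (t + t') + (bK.repr (u ^ 2) 0 - bK.repr (u' ^ 2) 0)) = 0 := by
      have hx : vv bK bL (2 * ((t - t') • a) + (u - u'))
        ((t - t') * (t + t') + (bK.repr (u ^ 2) 0 - bK.repr (u' ^ 2) 0)) =
          ((vv bK bL a t) ^ 2 + vv bK bL u (bK.repr (u ^ 2) 0)) -
          ((vv bK bL a t') ^ 2 + vv bK bL u' (bK.repr (u' ^ 2) 0)) := by
        have h2a : iota bK bL (2 * ((t - t') • a)) = 2 * ((t - t') • iota bK bL a) := by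
          rw [two_mul, map_add, map_smul, two_mul]
        unfold vv
        rw [map_add, map_sub, h2a, hL]
        simp only [Algebra.smul_def, map_mul, map_sub, map_add]
        ring
      rw [hx, hv, sub_self]
    obtain ⟨e2, e3⟩ := vv_zero_iff bK bL e1
    -- now the equation in `K`
    have e4 : (u - u') * (u + u') = -((t - t') • (bK 1 + (t + t') • bK 0)) := by
      have : u ^ 2 - u' ^ 2 = -((t - t') • (bK 1 + (t + t') • bK 0)) := by
        apply bK.ext_elem
        intro i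
        fin_cases i
        · simp
          linear_combination e3
        · simp
          linear_combination ht
      rw [← this]; ring
    have e5 : u - u' = -(2 * ((t - t') • a)) := by linear_combination e2
    rw [e5] at e4
    have hts : algebraMap F K (t - t') ≠ 0 := by
      rw [Ne, FaithfulSMul.algebraMap_eq_zero_iff]
      exact sub_ne_zero.2 htt
    have e6 : 2 * a * (u + u') = bK 1 + (t + t') • bK 0 := by
      apply mul_left_cancel₀ hts
      simp only [Algebra.smul_def] at e4 ⊢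
      linear_combination -e4
    apply hne
    have e7 : (bK 1 / 2 + t • bK 0) / a + (bK 1 / 2 + t' • bK 0) / a = 2 * u + 2 * u' := by
      have : bK 1 / 2 + t • bK 0 + (bK 1 / 2 + t' • bK 0) = 2 * a * (u + u') := by
        rw [e6, add_smul]
        field_simp
        ring
      rw [← add_div, this]
      field_simp
    have := congrArg (fun x => bK.repr x 1) e7
    simpa using this

theorem vv_add (a a' : K) (t t' : F) :
    vv bK bL a t + vv bK bL a' t' = vv bK bL (a + a') (t + t') := by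
  unfold vv
  rw [map_add, add_smul]
  abel

end Main

section Assembly

variable {q : ℕ} [Fact q.Prime] {K L : Type} [Field K] [Field L] [Algebra (ZMod q) K]
  [Algebra (ZMod q) L] (bK : Basis (Fin 2) (ZMod q) K) (bL : Basis (Fin 3) (ZMod q) L)

/-- the low part -/
noncomputable def f1 (u : K) : ℕ :=
  enc q (bL.repr (vv bK bL u (bK.repr (u ^ 2) 0)) 0) (bL.repr (vv bK bL u (bK.repr (u ^ 2) 0)) 1)
    (bL.repr (vv bK bL u (bK.repr (u ^ 2) 0)) 2) (bK.repr (u ^ 2) 1) 0 0

/-- the high part -/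
noncomputable def f2 (x : K × ZMod q) : ℕ :=
  enc q (bL.repr (vv bK bL x.1 x.2 ^ 2) 0) (bL.repr (vv bK bL x.1 x.2 ^ 2) 1)
    (bL.repr (vv bK bL x.1 x.2 ^ 2) 2) x.2 (bK.repr x.1 0) (bK.repr x.1 1)

theorem ext2 {x y z w : K} (h0 : bK.repr x 0 + bK.repr y 0 = bK.repr z 0 + bK.repr w 0)
    (h1 : bK.repr x 1 + bK.repr y 1 = bK.repr z 1 + bK.repr w 1) : x + y = z + w := by
  apply bK.ext_elem
  intro i
  fin_cases i
  · simpa using h0
  · simpa using h1

theorem ext3 {x y z w : L} (h0 : bL.repr x 0 + bL.repr y 0 = bL.repr z 0 + bL.repr w 0)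
    (h1 : bL.repr x 1 + bL.repr y 1 = bL.repr z 1 + bL.repr w 1)
    (h2 : bL.repr x 2 + bL.repr y 2 = bL.repr z 2 + bL.repr w 2) : x + y = z + w := by
  apply bL.ext_elem
  intro i
  fin_cases i
  · simpa using h0
  · simpa using h1
  · simpa using h2

theorem sidon1 (h2 : (2 : K) ≠ 0) {u1 u2 u3 u4 : K}
    (h : f1 bK bL u1 + f1 bK bL u2 = f1 bK bL u3 + f1 bK bL u4) :
    (u1 = u3 ∧ u2 = u4) ∨ (u1 = u4 ∧ u2 = u3) := by
  obtain ⟨e0, e1, e2, e3, -, -⟩ := enc_sum h
  have hL := ext3 bL e0 e1 e2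
  rw [vv_add, vv_add] at hL
  obtain ⟨hs, hc⟩ := vv_inj bK bL hL
  exact pair_of_sums h2 hs (ext2 bK hc e3)

theorem sidon2 (h2 : (2 : L) ≠ 0) {x1 x2 x3 x4 : K × ZMod q}
    (h : f2 bK bL x1 + f2 bK bL x2 = f2 bK bL x3 + f2 bK bL x4) :
    (x1 = x3 ∧ x2 = x4) ∨ (x1 = x4 ∧ x2 = x3) := by
  obtain ⟨e0, e1, e2, e3, e4, e5⟩ := enc_sum h
  have hsq := ext3 bL e0 e1 e2
  have ha := ext2 bK e4 e5
  have hs : vv bK bL x1.1 x1.2 + vv bK bL x2.1 x2.2 = vv bK bL x3.1 x3.2 + vv bK bL x4.1 x4.2 := by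
    rw [vv_add, vv_add, ha, e3]
  rcases pair_of_sums h2 hs hsq with ⟨h1, h2⟩ | ⟨h1, h2⟩
  · left
    obtain ⟨p1, p2⟩ := vv_inj bK bL h1
    obtain ⟨p3, p4⟩ := vv_inj bK bL h2
    exact ⟨Prod.ext p1 p2, Prod.ext p3 p4⟩
  · right
    obtain ⟨p1, p2⟩ := vv_inj bK bL h1
    obtain ⟨p3, p4⟩ := vv_inj bK bL h2
    exact ⟨Prod.ext p1 p2, Prod.ext p3 p4⟩

/-- membership condition for the low part -/
def InU (k : ℕ) (u : K) : Prop := (bK.repr (2 * u) 1).val ≤ k

/-- membership condition for the high part -/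
def InX (k : ℕ) (x : K × ZMod q) : Prop :=
  x.1 ≠ 0 ∧ k < (bK.repr ((bK 1 / 2 + x.2 • bK 0) / x.1) 1).val ∧
    (bK.repr ((bK 1 / 2 + x.2 • bK 0) / x.1) 1).val ≤ 2 * k

theorem sidon3 (h2 : (2 : K) ≠ 0) (hL : bL 0 = 1) {k : ℕ} (hk : 4 * k < q) {u u' : K}
    {x x' : K × ZMod q} (hu : InU bK k u) (hu' : InU bK k u') (hx : InX bK k x)
    (hx' : InX bK k x')
    (h : f1 bK bL u + f2 bK bL x = f1 bK bL u' + f2 bK bL x') : u = u' ∧ x = x' := by
  obtain ⟨e0, e1, e2, e3, e4, e5⟩ := enc_sum h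
  rw [zero_add, zero_add] at e4 e5
  obtain ⟨a, t⟩ := x
  obtain ⟨a', t'⟩ := x'
  have haa : a = a' := by
    apply bK.ext_elem
    intro i
    fin_cases i
    · exact e4
    · exact e5
  subst haa
  have hLL := ext3 bL e0 e1 e2
  dsimp only at *
  have hne : bK.repr ((bK 1 / 2 + t • bK 0) / a) 1 + bK.repr ((bK 1 / 2 + t' • bK 0) / a) 1 ≠
      bK.repr (2 * u) 1 + bK.repr (2 * u') 1 := by
    intro heq
    have hv := congrArg ZMod.val heq
    rw [ZMod.val_add_of_lt, ZMod.val_add_of_lt] at hv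
    · have h1 := hx.2.1
      have h2 := hx'.2.1
      have h3 : (bK.repr (2 * u) 1).val ≤ k := hu
      have h4 : (bK.repr (2 * u') 1).val ≤ k := hu'
      dsimp only at h1 h2
      omega
    · have h3 : (bK.repr (2 * u) 1).val ≤ k := hu
      have h4 : (bK.repr (2 * u') 1).val ≤ k := hu'
      omega
    · have h1 := hx.2.2
      have h2 := hx'.2.2
      dsimp only at h1 h2
      omega
  obtain ⟨h3, h4⟩ := cross bK bL h2 hL (a := a) (t := t) (t' := t') (u := u) (u' := u') hx.1 hne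
    (by rw [add_comm t, add_comm t']; exact e3)
    (by rw [add_comm, hLL, add_comm])
  exact ⟨h4, by rw [h3]⟩

/-- The first counting lemma. -/
theorem card_U (hq2 : q ≠ 2) [Fintype K] (k : ℕ) (hk : 4 * k < q)
    (U : Finset K) (hU : ∀ u, u ∈ U ↔ InU bK k u) : q * k ≤ U.card := by
  classical
  have h2F : (2 : ZMod q) ≠ 0 := by
    intro h
    have h' : ((2 : ℕ) : ZMod q) = 0 := by exact_mod_cast h
    rw [ZMod.natCast_eq_zero_iff] at h'
    have := Nat.le_of_dvd (by norm_num) h'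
    have := (Fact.out : q.Prime).two_le
    omega
  have hcard : ((Finset.univ : Finset (ZMod q)) ×ˢ Finset.range k).card = q * k := by
    rw [Finset.card_product, Finset.card_univ, ZMod.card, Finset.card_range]
  rw [← hcard]
  apply Finset.card_le_card_of_injOn
    (fun p : ZMod q × ℕ => p.1 • bK 0 + (((p.2 : ZMod q)) / 2) • bK 1)
  · intro p hp
    simp only [Finset.coe_product, Set.mem_prod, Finset.mem_coe, Finset.mem_univ,
      Finset.mem_range, true_and] at hp
    simp only [Finset.mem_coe, hU, InU]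
    have : bK.repr (2 * (p.1 • bK 0 + (((p.2 : ZMod q)) / 2) • bK 1)) 1 = (p.2 : ZMod q) := by
      rw [two_mul]
      simp
      field_simp
      ring
    rw [this, ZMod.val_natCast_of_lt (by omega)]
    omega
  · intro p hp p' hp' h
    simp only [Finset.coe_product, Set.mem_prod, Finset.mem_coe, Finset.mem_univ,
      Finset.mem_range, true_and] at hp hp'
    have h0 := congrArg (fun x => bK.repr x 0) h
    have h1 := congrArg (fun x => bK.repr x 1) h
    simp at h0 h1
    have h1' : (p.2 : ZMod q) = p'.2 := by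
      field_simp at h1
      exact h1
    have h1'' := congrArg ZMod.val h1'
    rw [ZMod.val_natCast_of_lt (by omega), ZMod.val_natCast_of_lt (by omega)] at h1''
    exact Prod.ext h0 h1''

/-- The second counting lemma. -/
theorem card_X (hK : bK 0 = 1) [Fintype K] (k : ℕ) (hk : 4 * k < q)
    (X : Finset (K × ZMod q)) (hX : ∀ x, x ∈ X ↔ InX bK k x) : q * (q - 1) * k ≤ X.card := by
  classical
  have hcard : ((Finset.univ : Finset (ZMod q)) ×ˢ ((Finset.univ : Finset (ZMod q)).erase 0) ×ˢ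
      Finset.range k).card = q * (q - 1) * k := by
    rw [Finset.card_product, Finset.card_product, Finset.card_erase_of_mem (Finset.mem_univ _),
      Finset.card_univ, ZMod.card, Finset.card_range]
    ring
  rw [← hcard]
  have hz : ∀ x y : ZMod q, y ≠ 0 → x • bK 0 + y • bK 1 ≠ 0 := by
    intro x y hy h
    have h1 := congrArg (fun x => bK.repr x 1) h
    simp at h1
    exact hy h1
  apply Finset.card_le_card_of_injOn
    (fun p : ZMod q × ZMod q × ℕ => ((p.1 • bK 0 + p.2.1 • bK 1)⁻¹,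
      (((k + 1 + p.2.2 : ℕ) : ZMod q) -
        bK.repr (bK 1 / 2 * (p.1 • bK 0 + p.2.1 • bK 1)) 1) / p.2.1))
  · intro p hp
    simp only [Finset.coe_product, Set.mem_prod, Finset.mem_coe, Finset.mem_univ,
      Finset.mem_range, true_and, Finset.mem_erase, and_true] at hp
    obtain ⟨hp1, hp2⟩ := hp
    have hz1 := hz p.1 p.2.1 hp1
    simp only [Finset.mem_coe, hX, InX]
    refine ⟨inv_ne_zero hz1, ?_⟩
    have : bK.repr ((bK 1 / 2 + ((((k + 1 + p.2.2 : ℕ) : ZMod q) -
        bK.repr (bK 1 / 2 * (p.1 • bK 0 + p.2.1 • bK 1)) 1) / p.2.1) • bK 0) /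
        (p.1 • bK 0 + p.2.1 • bK 1)⁻¹) 1 = ((k + 1 + p.2.2 : ℕ) : ZMod q) := by
      rw [div_inv_eq_mul, add_mul, map_add, Finsupp.add_apply, smul_mul_assoc]
      rw [show bK 0 * (p.1 • bK 0 + p.2.1 • bK 1) = p.1 • bK 0 + p.2.1 • bK 1 by
        rw [hK, one_mul]]
      rw [map_smul, Finsupp.smul_apply]
      rw [show bK.repr (p.1 • bK 0 + p.2.1 • bK 1) 1 = p.2.1 by simp]
      rw [smul_eq_mul, div_mul_cancel₀ _ hp1]
      ring
    rw [this, ZMod.val_natCast_of_lt (by omega)]
    omega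
  · intro p hp p' hp' h
    simp only [Finset.coe_product, Set.mem_prod, Finset.mem_coe, Finset.mem_univ,
      Finset.mem_range, true_and, Finset.mem_erase, and_true] at hp hp'
    obtain ⟨h1, h2⟩ := Prod.ext_iff.1 h
    dsimp only at h1 h2
    have h1' := inv_injective h1
    rw [h1'] at h2
    have e0 := congrArg (fun x => bK.repr x 0) h1'
    have e1 := congrArg (fun x => bK.repr x 1) h1'
    simp at e0 e1
    rw [e1, div_left_inj' hp'.1] at h2
    have h3 : ((k + 1 + p.2.2 : ℕ) : ZMod q) = ((k + 1 + p'.2.2 : ℕ) : ZMod q) := by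
      linear_combination h2
    have h4 := congrArg ZMod.val h3
    rw [ZMod.val_natCast_of_lt (by omega), ZMod.val_natCast_of_lt (by omega)] at h4
    exact Prod.ext e0 (Prod.ext e1 (by omega))

/-- The finite construction. -/
theorem construct (hq2 : q ≠ 2) (hK : bK 0 = 1) (hL : bL 0 = 1) [Fintype K] (h2K : (2 : K) ≠ 0)
    (h2L : (2 : L) ≠ 0) (k : ℕ) (hk : 4 * k < q) :
    ∃ A : Finset ℕ, A ⊆ Finset.Icc 1 (3 * (2 * q) ^ 6) ∧
      (∀ a ∈ A, ∀ b ∈ A, ∀ c ∈ A, ∀ d ∈ A,
            a + b = c + d → (a = c ∧ b = d) ∨ (a = d ∧ b = c)) ∧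
      q * (q - 1) * k ≤ A.card ∧ q * k ≤ (A ∩ Finset.Icc 1 ((2 * q) ^ 4)).card := by
  classical
  set U : Finset K := Finset.univ.filter (fun u => InU bK k u) with hUdef
  set X : Finset (K × ZMod q) := Finset.univ.filter (fun x => InX bK k x) with hXdef
  have hU : ∀ u, u ∈ U ↔ InU bK k u := fun u => by simp [hUdef]
  have hX : ∀ x, x ∈ X ↔ InX bK k x := fun x => by simp [hXdef]
  set B : ℕ := (2 * q) ^ 6 with hB
  have hb1 : ∀ u : K, f1 bK bL u < (2 * q) ^ 4 := fun u => enc_lt' q _ _ _ _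
  have hb2 : ∀ x : K × ZMod q, f2 bK bL x < B := fun x => enc_lt q _ _ _ _ _ _
  have hq1 : 1 ≤ q := (Fact.out : q.Prime).one_lt.le
  have h46 : (2 * q) ^ 4 ≤ B := Nat.pow_le_pow_right (by omega) (by norm_num)
  have hb1' : ∀ u : K, f1 bK bL u < B := fun u => lt_of_lt_of_le (hb1 u) h46
  refine ⟨U.image (fun u => f1 bK bL u + 1) ∪ X.image (fun x => f2 bK bL x + 2 * B + 1),
    ?_, ?_, ?_, ?_⟩
  · intro a ha
    rw [Finset.mem_union, Finset.mem_image, Finset.mem_image] at ha
    rw [Finset.mem_Icc]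
    rcases ha with ⟨u, -, rfl⟩ | ⟨x, -, rfl⟩
    · have := hb1' u
      omega
    · have := hb2 x
      omega
  · intro a ha b hb c hc d hd h
    rw [Finset.mem_union, Finset.mem_image, Finset.mem_image] at ha hb hc hd
    rcases ha with ⟨u1, hu1, rfl⟩ | ⟨x1, hx1, rfl⟩ <;>
    rcases hb with ⟨u2, hu2, rfl⟩ | ⟨x2, hx2, rfl⟩ <;>
    rcases hc with ⟨u3, hu3, rfl⟩ | ⟨x3, hx3, rfl⟩ <;>
    rcases hd with ⟨u4, hu4, rfl⟩ | ⟨x4, hx4, rfl⟩
    · -- 1111
      rcases sidon1 bK bL h2K (u1 := u1) (u2 := u2) (u3 := u3) (u4 := u4) (by omega) with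
        ⟨rfl, rfl⟩ | ⟨rfl, rfl⟩
      · exact Or.inl ⟨rfl, rfl⟩
      · exact Or.inr ⟨rfl, rfl⟩
    · have := hb1' u1; have := hb1' u2; omega
    · have := hb1' u1; have := hb1' u2; omega
    · have := hb1' u1; have := hb1' u2; omega
    · have := hb1' u3; have := hb1' u4; omega
    · -- 1 2 1 2
      obtain ⟨rfl, rfl⟩ := sidon3 bK bL h2K hL hk ((hU _).1 hu1) ((hU _).1 hu3) ((hX _).1 hx2)
        ((hX _).1 hx4) (by omega)
      exact Or.inl ⟨rfl, rfl⟩
    · -- 1 2 2 1
      obtain ⟨rfl, rfl⟩ := sidon3 bK bL h2K hL hk ((hU _).1 hu1) ((hU _).1 hu4) ((hX _).1 hx2)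
        ((hX _).1 hx3) (by omega)
      exact Or.inr ⟨rfl, rfl⟩
    · have := hb1' u1; have := hb2 x2; omega
    · have := hb1' u3; have := hb1' u4; omega
    · -- 2 1 1 2
      obtain ⟨rfl, rfl⟩ := sidon3 bK bL h2K hL hk ((hU _).1 hu2) ((hU _).1 hu3) ((hX _).1 hx1)
        ((hX _).1 hx4) (by omega)
      exact Or.inr ⟨rfl, rfl⟩
    · -- 2 1 2 1
      obtain ⟨rfl, rfl⟩ := sidon3 bK bL h2K hL hk ((hU _).1 hu2) ((hU _).1 hu4) ((hX _).1 hx1)
        ((hX _).1 hx3) (by omega)
      exact Or.inl ⟨rfl, rfl⟩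
    · have := hb1' u2; have := hb2 x1; omega
    · have := hb1' u3; have := hb1' u4; omega
    · have := hb1' u3; have := hb2 x4; omega
    · have := hb1' u4; have := hb2 x3; omega
    · -- 2222
      rcases sidon2 bK bL h2L (x1 := x1) (x2 := x2) (x3 := x3) (x4 := x4) (by omega) with
        ⟨rfl, rfl⟩ | ⟨rfl, rfl⟩
      · exact Or.inl ⟨rfl, rfl⟩
      · exact Or.inr ⟨rfl, rfl⟩
  · calc q * (q - 1) * k ≤ X.card := card_X bK hK k hk X hX
      _ = (X.image (fun x => f2 bK bL x + 2 * B + 1)).card := by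
          rw [Finset.card_image_of_injective]
          intro x y h
          dsimp only at h
          rcases sidon2 bK bL h2L (x1 := x) (x2 := x) (x3 := y) (x4 := y) (by omega) with h | h
          · exact h.1
          · exact h.1
      _ ≤ _ := Finset.card_le_card Finset.subset_union_right
  · calc q * k ≤ U.card := card_U bK hq2 k hk U hU
      _ = (U.image (fun u => f1 bK bL u + 1)).card := by
          rw [Finset.card_image_of_injective]
          intro x y h
          dsimp only at h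
          rcases sidon1 bK bL h2K (u1 := x) (u2 := x) (u3 := y) (u4 := y) (by omega) with h | h
          · exact h.1
          · exact h.1
      _ ≤ _ := by
          apply Finset.card_le_card
          intro a ha
          rw [Finset.mem_inter]
          refine ⟨Finset.mem_union_left _ ha, ?_⟩
          rw [Finset.mem_image] at ha
          obtain ⟨u, -, rfl⟩ := ha
          rw [Finset.mem_Icc]
          have := hb1 u
          omega

end Assembly

/-- The finite construction for every odd prime `q`. -/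
theorem core (q : ℕ) (hq : q.Prime) (hq2 : q ≠ 2) (k : ℕ) (hk : 4 * k < q) :
    ∃ A : Finset ℕ, A ⊆ Finset.Icc 1 (3 * (2 * q) ^ 6) ∧
      (∀ a ∈ A, ∀ b ∈ A, ∀ c ∈ A, ∀ d ∈ A,
            a + b = c + d → (a = c ∧ b = d) ∨ (a = d ∧ b = c)) ∧
      q * (q - 1) * k ≤ A.card ∧ q * k ≤ (A ∩ Finset.Icc 1 ((2 * q) ^ 4)).card := by
  have : Fact q.Prime := ⟨hq⟩
  have hB2 : ∃ b : Basis (Fin 2) (ZMod q) (GaloisField q 2), b 0 = 1 := by
    let pb := Field.powerBasisOfFiniteOfSeparable (ZMod q) (GaloisField q 2)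
    have hd : pb.dim = 2 := by rw [← pb.finrank, GaloisField.finrank]; norm_num
    refine ⟨pb.basis.reindex (finCongr hd), ?_⟩
    simp
  have hB3 : ∃ b : Basis (Fin 3) (ZMod q) (GaloisField q 3), b 0 = 1 := by
    let pb := Field.powerBasisOfFiniteOfSeparable (ZMod q) (GaloisField q 3)
    have hd : pb.dim = 3 := by rw [← pb.finrank, GaloisField.finrank]; norm_num
    refine ⟨pb.basis.reindex (finCongr hd), ?_⟩
    simp
  obtain ⟨bK, hK⟩ := hB2
  obtain ⟨bL, hL⟩ := hB3
  have : Fintype (GaloisField q 2) := Fintype.ofFinite _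
  have h2 : ∀ (R : Type) [Field R] [CharP R q], (2 : R) ≠ 0 := by
    intro R _ _ h
    have h' : ((2 : ℕ) : R) = 0 := by exact_mod_cast h
    rw [CharP.cast_eq_zero_iff R q] at h'
    have := Nat.le_of_dvd (by norm_num) h'
    have := hq.two_le
    omega
  exact construct bK bL hq2 hK hL (h2 _) (h2 _) k hk

end Pool.Agent.Lib.MP_32845f_nt
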